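import Pool.Agent.Lib_helper11.TD.Lin

/-!
# TD10: irreducibility under a normal subgroup (MP_97f789_ag, Theorem D)
-/

set_option autoImplicit false

namespace Pool.Agent.TD

variable {k V : Type*} [Field k] [AddCommGroup V] [Module k V]
variable {G : Type*} [Group G]

theorem td10_apply (b : LinearMap.BilinForm k V) (d x : V) :
    refl b d x = x - (2 / b d d * b d x) • d := by
  simp [refl, smul_smul]

theorem td10_invol (b : LinearMap.BilinForm k V) (d x : V) (hd : b d d ≠ 0) :
    refl b d (refl b d x) = x := by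
  rw [td10_apply, td10_apply]
  have : b d (x - (2 / b d d * b d x) • d) = - b d x := by
    simp only [map_sub, map_smul, smul_eq_mul]
    field_simp
    ring
  rw [this, sub_sub, ← add_smul]
  rw [show 2 / b d d * b d x + 2 / b d d * - b d x = 0 by ring, zero_smul, sub_zero]

theorem td10_inv (ρ : G →* Module.End k V) (b : LinearMap.BilinForm k V) (d : V)
    (hd : b d d ≠ 0) (g : G) (hg : ρ g = refl b d) (x : V) : ρ g⁻¹ x = refl b d x := by
  have h1 : ρ g (refl b d x) = x := by rw [hg]; exact td10_invol b d x hd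
  have h2 : ρ g⁻¹ (ρ g (refl b d x)) = refl b d x := by
    rw [← Module.End.mul_apply, ← map_mul, inv_mul_cancel, map_one, Module.End.one_apply]
  rw [h1] at h2
  exact h2

/-- The key relation. -/
theorem td10_key (h2 : (2 : k) ≠ 0) (ρ : G →* Module.End k V) (b : LinearMap.BilinForm k V)
    (H : Subgroup G) [H.Normal] (U : Submodule k V) (hU : ∀ h ∈ H, ∀ u ∈ U, ρ h u ∈ U)
    (d : V) (hd : b d d ≠ 0) (g : G) (hg : ρ g = refl b d) (u : V) (hu : u ∈ U)
    (hu0 : b d u ≠ 0) (h : G) (hh : h ∈ H) : ∃ v ∈ U, ∃ c : k, ρ h d = v + c • d := by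
  have h1 : ρ (g * h * g⁻¹) u ∈ U := hU _ (Subgroup.Normal.conj_mem inferInstance h hh g) u hu
  have h3 : ρ h u ∈ U := hU h hh u hu
  rw [map_mul, map_mul, Module.End.mul_apply, Module.End.mul_apply, td10_inv ρ b d hd g hg,
    td10_apply, hg, td10_apply, map_sub, map_smul] at h1
  set z := ρ h u - (2 / b d d * b d u) • ρ h d with hz
  set c := 2 / b d d * b d u with hc
  have hc0 : c ≠ 0 := by
    rw [hc]
    exact mul_ne_zero (div_ne_zero h2 hd) hu0
  refine ⟨c⁻¹ • (ρ h u - (z - (2 / b d d * b d z) • d)), ?_, - (c⁻¹ * (2 / b d d * b d z)), ?_⟩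
  · exact U.smul_mem _ (U.sub_mem h3 h1)
  · rw [hz]
    simp only [smul_sub, neg_smul, smul_smul]
    rw [inv_mul_cancel₀ hc0]
    simp only [one_smul]
    abel

/-- The hypotheses. -/
structure Td10C (ρ : G →* Module.End k V) (b : LinearMap.BilinForm k V) (Δ : Set V)
    (H : Subgroup G) : Prop where
  h2 : (2 : k) ≠ 0
  hs : ∀ x y, b x y = b y x
  hb : ∀ g x y, b (ρ g x) (ρ g y) = b x y
  h0 : ∀ δ ∈ Δ, b δ δ ≠ 0
  hr : ∀ δ ∈ Δ, ∃ g, ρ g = refl b δ
  hW : ∀ x ∈ Submodule.span k Δ, (∀ y ∈ Submodule.span k Δ, b x y = 0) → x = 0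
  hirr : ∀ U ≤ Submodule.span k Δ, (∀ δ ∈ Δ, δ ∈ U ∨ ∀ u ∈ U, b u δ = 0) →
      U = ⊥ ∨ U = Submodule.span k Δ
  hH : ∃ h ∈ H, ∃ x ∈ Submodule.span k Δ, ρ h (ρ h x) ≠ x

variable {ρ : G →* Module.End k V} {b : LinearMap.BilinForm k V} {Δ : Set V} {H : Subgroup G}
  [H.Normal]

/-- Vectors on which all elements of `H` act as involutions vanish. -/
theorem td10_F (C : Td10C ρ b Δ H) (x : V) (hx : x ∈ Submodule.span k Δ)
    (h : ∀ h ∈ H, ρ h (ρ h x) = x) : x = 0 := by
  let F : Submodule k V :=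
    { carrier := {x | x ∈ Submodule.span k Δ ∧ ∀ h ∈ H, ρ h (ρ h x) = x}
      zero_mem' := ⟨zero_mem _, by simp⟩
      add_mem' := by
        rintro x y ⟨hx, hx'⟩ ⟨hy, hy'⟩
        exact ⟨add_mem hx hy, fun h hh => by rw [map_add, map_add, hx' h hh, hy' h hh]⟩
      smul_mem' := by
        rintro c x ⟨hx, hx'⟩
        exact ⟨Submodule.smul_mem _ _ hx, fun h hh => by rw [map_smul, map_smul, hx' h hh]⟩ }
  have hF : F = ⊥ ∨ F = Submodule.span k Δ := by
    refine C.hirr F (fun x hx => hx.1) fun δ hδ => ?_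
    by_cases hall : ∀ u ∈ F, b u δ = 0
    · exact Or.inr hall
    · left
      push Not at hall
      obtain ⟨u, hu, hu0⟩ := hall
      obtain ⟨g, hg⟩ := C.hr δ hδ
      have h1 : ρ g u ∈ F := by
        refine ⟨?_, fun h hh => ?_⟩
        · rw [hg, td10_apply]
          exact sub_mem hu.1 (Submodule.smul_mem _ _ (Submodule.subset_span hδ))
        · have h3 : g⁻¹ * h * g ∈ H := by
            have := Subgroup.Normal.conj_mem (inferInstance : H.Normal) h hh g⁻¹
            simpa using this
          have h4 := hu.2 _ h3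
          have h5 : ρ g (ρ (g⁻¹ * h * g) (ρ (g⁻¹ * h * g) u)) = ρ h (ρ h (ρ g u)) := by
            simp only [← Module.End.mul_apply, ← map_mul]
            congr 2
            group
          rw [← h5, h4]
      have h6 : (2 / b δ δ * b δ u) • δ ∈ F := by
        have h7 : (2 / b δ δ * b δ u) • δ = u - ρ g u := by
          rw [hg, td10_apply]
          abel
        rw [h7]
        exact F.sub_mem hu h1
      have h8 : 2 / b δ δ * b δ u ≠ 0 :=
        mul_ne_zero (div_ne_zero C.h2 (C.h0 δ hδ)) (by rw [C.hs]; exact hu0)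
      exact (F.smul_mem_iff h8).1 h6
  rcases hF with hF | hF
  · have : x ∈ F := ⟨hx, h⟩
    rw [hF] at this
    simpa using this
  · exfalso
    obtain ⟨h, hh, x, hx, hne⟩ := C.hH
    rw [← hF] at hx
    exact hne (hx.2 h hh)

/-- The second isotropic line. -/
theorem td10_anti (C : Td10C ρ b Δ H) (u : V) (hu : b u u = 0)
    (hl : ∀ h ∈ H, ∃ c : k, ρ h u = c • u) (d : V) (hd : d ∈ Δ) (hud : b u d ≠ 0)
    (h : G) (hh : h ∈ H) (c : k) (hc : ρ h u = c • u) :
    c • ρ h (d - (b d d / (2 * b u d)) • u) = d - (b d d / (2 * b u d)) • u := by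
  obtain ⟨g, hg⟩ := C.hr d hd
  have h2 := C.h2
  have hU : ∀ h ∈ H, ∀ v ∈ Submodule.span k {u}, ρ h v ∈ Submodule.span k {u} := by
    intro h hh v hv
    obtain ⟨a, rfl⟩ := Submodule.mem_span_singleton.1 hv
    obtain ⟨c, hc⟩ := hl h hh
    rw [map_smul, hc, smul_smul]
    exact Submodule.smul_mem _ _ (Submodule.mem_span_singleton_self u)
  obtain ⟨v, hv, β, hβ⟩ := td10_key C.h2 ρ b H (Submodule.span k {u}) hU d (C.h0 d hd) g hg u
    (Submodule.mem_span_singleton_self u) (by rw [C.hs]; exact hud) h hh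
  obtain ⟨α, rfl⟩ := Submodule.mem_span_singleton.1 hv
  have e1 : c * β = 1 := by
    have := C.hb h u d
    rw [hc, hβ] at this
    simp only [map_add, map_smul, LinearMap.smul_apply, smul_eq_mul, hu] at this
    have h3 : (c * β - 1) * b u d = 0 := by linear_combination this
    rcases mul_eq_zero.1 h3 with h4 | h4
    · exact sub_eq_zero.1 h4
    · exact absurd h4 hud
  have e2 : 2 * α * β * b u d + β ^ 2 * b d d = b d d := by
    have := C.hb h d d
    rw [hβ] at this
    simp only [map_add, map_smul, LinearMap.add_apply, LinearMap.smul_apply, smul_eq_mul, hu,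
      C.hs d u] at this
    linear_combination this
  have e3 : c * α - b d d / (2 * b u d) * c ^ 2 = - (b d d / (2 * b u d)) := by
    have e4 : 2 * α * c * b u d + b d d = b d d * c ^ 2 := by
      linear_combination c ^ 2 * e2 - (2 * α * c * b u d + b d d * (c * β + 1)) * e1
    field_simp
    linear_combination e4
  rw [map_sub, map_smul, hβ, hc]
  have e5 : c • (α • u + β • d - (b d d / (2 * b u d)) • c • u) =
      (c * β) • d + (c * α - b d d / (2 * b u d) * c ^ 2) • u := by
    module
  rw [e5, e1, e3]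
  module

theorem td10_b1 (u d : V) (hu : b u u = 0) :
    b u (d - (b d d / (2 * b u d)) • u) = b u d := by
  simp [hu]

theorem td10_b2 (h2 : (2 : k) ≠ 0) (u d : V)
    (hud : b u d ≠ 0) : b (d - (b d d / (2 * b u d)) • u) d = b d d / 2 := by
  simp only [map_sub, map_smul, LinearMap.sub_apply, LinearMap.smul_apply, smul_eq_mul]
  field_simp
  ring

theorem td10_b3 (h2 : (2 : k) ≠ 0) (u d : V) (hs : ∀ x y, b x y = b y x) (hu : b u u = 0)
    (hud : b u d ≠ 0) :
    b (d - (b d d / (2 * b u d)) • u) (d - (b d d / (2 * b u d)) • u) = 0 := by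
  simp only [map_sub, map_smul, LinearMap.sub_apply, LinearMap.smul_apply, smul_eq_mul, hu,
    hs d u]
  field_simp
  ring

/-- Vectors in the opposite eigenspace orthogonal to the root vanish. -/
theorem td10_L3 (C : Td10C ρ b Δ H) (u : V) (hu : b u u = 0)
    (hl : ∀ h ∈ H, ∃ c : k, ρ h u = c • u) (d : V) (hd : d ∈ Δ) (hud : b u d ≠ 0)
    (w : V) (hw : w ∈ Submodule.span k Δ)
    (hwa : ∀ h ∈ H, ∀ c : k, ρ h u = c • u → c • ρ h w = w) (hwd : b w d = 0) : w = 0 := by
  refine td10_F C w hw fun h hh => ?_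
  obtain ⟨g, hg⟩ := C.hr d hd
  have h2 := C.h2
  have h3 : g⁻¹ * h * g ∈ H := by
    have := Subgroup.Normal.conj_mem (inferInstance : H.Normal) h hh g⁻¹
    simpa using this
  obtain ⟨c, hc⟩ := hl h hh
  obtain ⟨c', hc'⟩ := hl _ h3
  have hcomm : ∀ x, ρ h (ρ g x) = ρ g (ρ (g⁻¹ * h * g) x) := by
    intro x
    simp only [← Module.End.mul_apply, ← map_mul]
    congr 2
    group
  have hN := C.h0 d hd
  set w0 := d - (b d d / (2 * b u d)) • u with hw0
  have e1 : ρ g u = (- (2 * b u d / b d d)) • w0 := by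
    rw [hg, td10_apply, hw0, smul_sub, smul_smul, C.hs d u]
    have : -(2 * b u d / b d d) * (b d d / (2 * b u d)) = -1 := by
      field_simp
    rw [this]
    have h4 : 2 / b d d * b u d = 2 * b u d / b d d := by ring
    rw [h4]
    module
  have hκ : - (2 * b u d / b d d) ≠ 0 :=
    neg_ne_zero.2 (div_ne_zero (mul_ne_zero h2 hud) hN)
  have e2 : ρ h w0 = c' • w0 := by
    have := hcomm u
    rw [hc', map_smul, e1, map_smul, smul_comm c'] at this
    exact smul_right_injective V hκ this
  have e3 := td10_anti C u hu hl d hd hud h hh c hc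
  rw [← hw0, e2] at e3
  have hw0n : b u w0 ≠ 0 := by
    rw [hw0, td10_b1 u d hu]
    exact hud
  have e4 : c * c' = 1 := by
    have := congrArg (b u) e3
    simp only [map_smul, smul_eq_mul] at this
    have h5 : (c * c' - 1) * b u w0 = 0 := by linear_combination this
    rcases mul_eq_zero.1 h5 with h6 | h6
    · exact sub_eq_zero.1 h6
    · exact absurd h6 hw0n
  have e5 : ρ g w = w := by
    rw [hg, td10_apply, C.hs d w, hwd]
    simp
  have e6 : ρ (g⁻¹ * h * g) w = c • w := by
    have := congrArg (c • ·) (hwa _ h3 c' hc')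
    simp only [smul_smul, e4, one_smul] at this
    exact this
  have e7 : ρ h w = c • w := by
    have := hcomm w
    rw [e5, e6, map_smul, e5] at this
    exact this
  rw [e7, map_smul]
  exact hwa h hh c hc

/-- There are no isotropic eigenlines. -/
theorem td10_B (C : Td10C ρ b Δ H) (hdim : 3 ≤ Module.finrank k (Submodule.span k Δ)) (u : V)
    (huW : u ∈ Submodule.span k Δ) (hu : b u u = 0)
    (hl : ∀ h ∈ H, ∃ c : k, ρ h u = c • u) : u = 0 := by
  by_contra hu0
  have h2 := C.h2
  -- a root not orthogonal to u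
  obtain ⟨d, hd, hud⟩ : ∃ d ∈ Δ, b u d ≠ 0 := by
    by_contra hcon
    push Not at hcon
    refine hu0 (C.hW u huW fun y hy => ?_)
    induction hy using Submodule.span_induction with
    | mem x hx => exact hcon x hx
    | zero => simp
    | add x y _ _ hx hy => rw [map_add, hx, hy, add_zero]
    | smul a x _ hx => rw [map_smul, hx, smul_zero]
  have hN := C.h0 d hd
  set w := d - (b d d / (2 * b u d)) • u with hw
  have hwW : w ∈ Submodule.span k Δ :=
    sub_mem (Submodule.subset_span hd) (Submodule.smul_mem _ _ huW)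
  have hwa : ∀ h ∈ H, ∀ c : k, ρ h u = c • u → c • ρ h w = w := fun h hh c hc =>
    td10_anti C u hu hl d hd hud h hh c hc
  have hww : b w w = 0 := td10_b3 h2 u d C.hs hu hud
  have hwd : b w d = b d d / 2 := td10_b2 h2 u d hud
  have hwd0 : b w d ≠ 0 := by rw [hwd]; exact div_ne_zero hN h2
  have huw : b u w = b u d := td10_b1 u d hu
  have hw0 : w ≠ 0 := by
    intro h
    rw [h] at huw
    rw [map_zero] at huw
    exact hud huw.symm
  have hcc : ∀ h ∈ H, ∀ c : k, ρ h u = c • u → c ≠ 0 := by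
    intro h hh c hc h0
    have := hwa h hh c hc
    rw [h0, zero_smul] at this
    exact hw0 this.symm
  have hlw : ∀ h ∈ H, ∃ c : k, ρ h w = c • w := by
    intro h hh
    obtain ⟨c, hc⟩ := hl h hh
    refine ⟨c⁻¹, ?_⟩
    have := congrArg (c⁻¹ • ·) (hwa h hh c hc)
    simp only [smul_smul, inv_mul_cancel₀ (hcc h hh c hc), one_smul] at this
    exact this
  have hua : ∀ h ∈ H, ∀ c : k, ρ h w = c • w → c • ρ h u = u := by
    intro h hh c hc
    obtain ⟨c', hc'⟩ := hl h hh
    have h3 := hwa h hh c' hc'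
    rw [hc] at h3
    have h4 := congrArg (b u) h3
    simp only [map_smul, smul_eq_mul] at h4
    have h5 : (c' * c - 1) * b u w = 0 := by linear_combination h4
    rcases mul_eq_zero.1 h5 with h6 | h6
    · rw [hc', smul_smul, mul_comm, sub_eq_zero.1 h6, one_smul]
    · exact absurd (huw ▸ h6) hud
  -- the plane
  let P : Submodule k V := Submodule.span k {u, w}
  have huP : u ∈ P := Submodule.subset_span (by simp)
  have hwP : w ∈ P := Submodule.subset_span (by simp)
  have hPW : P ≤ Submodule.span k Δ := by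
    refine Submodule.span_le.2 ?_
    rintro x hx
    rcases hx with rfl | hx
    · exact huW
    · rw [Set.mem_singleton_iff] at hx
      rw [hx]; exact hwW
  have hP : P = ⊥ ∨ P = Submodule.span k Δ := by
    refine C.hirr P hPW fun d' hd' => ?_
    by_cases h1 : b u d' = 0
    · by_cases h3 : b w d' = 0
      · right
        intro x hx
        obtain ⟨α, β, rfl⟩ := Submodule.mem_span_pair.1 hx
        simp [h1, h3]
      · left
        -- w' = d' - * w is opposite to w
        set w' := d' - (b d' d' / (2 * b w d')) • w with hw'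
        have hw'W : w' ∈ Submodule.span k Δ :=
          sub_mem (Submodule.subset_span hd') (Submodule.smul_mem _ _ hwW)
        have hw'a : ∀ h ∈ H, ∀ c : k, ρ h w = c • w → c • ρ h w' = w' := fun h hh c hc =>
          td10_anti C w hww hlw d' hd' h3 h hh c hc
        have h4 : w' - (b w' d / b u d) • u = 0 := by
          refine td10_L3 C w hww hlw d hd hwd0 _
            (sub_mem hw'W (Submodule.smul_mem _ _ huW)) ?_ ?_
          · intro h hh c hc
            rw [map_sub, smul_sub, hw'a h hh c hc, map_smul, smul_comm c, hua h hh c hc]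
          · simp only [map_sub, map_smul, LinearMap.sub_apply, LinearMap.smul_apply,
              smul_eq_mul]
            field_simp
            ring
        have h5 : d' = (b w' d / b u d) • u + (b d' d' / (2 * b w d')) • w := by
          rw [← sub_eq_zero.1 h4, hw']
          abel
        rw [h5]
        exact P.add_mem (P.smul_mem _ huP) (P.smul_mem _ hwP)
    · left
      set w' := d' - (b d' d' / (2 * b u d')) • u with hw'
      have hw'W : w' ∈ Submodule.span k Δ :=
        sub_mem (Submodule.subset_span hd') (Submodule.smul_mem _ _ huW)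
      have hw'a : ∀ h ∈ H, ∀ c : k, ρ h u = c • u → c • ρ h w' = w' := fun h hh c hc =>
        td10_anti C u hu hl d' hd' h1 h hh c hc
      have h4 : w' - (b w' d / b w d) • w = 0 := by
        refine td10_L3 C u hu hl d hd hud _
          (sub_mem hw'W (Submodule.smul_mem _ _ hwW)) ?_ ?_
        · intro h hh c hc
          rw [map_sub, smul_sub, hw'a h hh c hc, map_smul, smul_comm c, hwa h hh c hc]
        · simp only [map_sub, map_smul, LinearMap.sub_apply, LinearMap.smul_apply,
            smul_eq_mul]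
          field_simp
          ring
      have h5 : d' = (b d' d' / (2 * b u d')) • u + (b w' d / b w d) • w := by
        rw [← sub_eq_zero.1 h4, hw']
        abel
      rw [h5]
      exact P.add_mem (P.smul_mem _ huP) (P.smul_mem _ hwP)
  rcases hP with hP | hP
  · rw [hP] at huP
    exact hu0 (by simpa using huP)
  · rw [← hP] at hdim
    have h3 : Module.finrank k P ≤ 2 := by
      classical
      have h4 := finrank_span_le_card (R := k) ({u, w} : Set V)
      refine h4.trans ?_
      have : ({u, w} : Set V).toFinset ⊆ {u, w} := by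
        intro x hx
        simpa using hx
      exact (Finset.card_le_card this).trans Finset.card_le_two
    omega

/-- There are no eigenlines at all. -/
theorem td10_C (C : Td10C ρ b Δ H) (hdim : 3 ≤ Module.finrank k (Submodule.span k Δ)) (u : V)
    (huW : u ∈ Submodule.span k Δ) (hl : ∀ h ∈ H, ∃ c : k, ρ h u = c • u) : u = 0 := by
  by_cases hu : b u u = 0
  · exact td10_B C hdim u huW hu hl
  · refine td10_F C u huW fun h hh => ?_
    obtain ⟨c, hc⟩ := hl h hh
    have h1 := C.hb h u u
    rw [hc] at h1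
    simp only [map_smul, LinearMap.smul_apply, smul_eq_mul] at h1
    have h3 : (c * c - 1) * b u u = 0 := by linear_combination h1
    rcases mul_eq_zero.1 h3 with h4 | h4
    · rw [hc, map_smul, hc, smul_smul, sub_eq_zero.1 h4, one_smul]
    · exact absurd h4 hu

/-- TD10: a normal subgroup that does not act through involutions acts irreducibly. -/
theorem td_irred {k V : Type*} [Field k] [AddCommGroup V] [Module k V]
    {G : Type*} [Group G] [FiniteDimensional k V] (h2 : (2 : k) ≠ 0) (ρ : G →* Module.End k V)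
    (b : LinearMap.BilinForm k V) (hs : ∀ x y, b x y = b y x)
    (hb : ∀ g x y, b (ρ g x) (ρ g y) = b x y) (Δ : Set V) (h0 : ∀ δ ∈ Δ, b δ δ ≠ 0)
    (hG : ∀ g, ∀ δ ∈ Δ, ρ g δ ∈ Δ) (hr : ∀ δ ∈ Δ, ∃ g, ρ g = refl b δ)
    (hW : ∀ x ∈ Submodule.span k Δ, (∀ y ∈ Submodule.span k Δ, b x y = 0) → x = 0)
    (hirr : ∀ U ≤ Submodule.span k Δ, (∀ δ ∈ Δ, δ ∈ U ∨ ∀ u ∈ U, b u δ = 0) →
      U = ⊥ ∨ U = Submodule.span k Δ)
    (hdim : 3 ≤ Module.finrank k (Submodule.span k Δ)) (H : Subgroup G) [H.Normal]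
    (hH : ∃ h ∈ H, ∃ x ∈ Submodule.span k Δ, ρ h (ρ h x) ≠ x)
    (U : Submodule k V) (hU : U ≤ Submodule.span k Δ) (hU' : ∀ h ∈ H, ∀ u ∈ U, ρ h u ∈ U) :
    U = ⊥ ∨ U = Submodule.span k Δ := by
  have C : Td10C ρ b Δ H := ⟨h2, hs, hb, h0, hr, hW, hirr, hH⟩
  by_contra hcon
  push Not at hcon
  obtain ⟨hne, hneW⟩ := hcon
  -- a minimal stable subspace
  obtain ⟨M, hMU, hM⟩ := exists_minimal_le_of_wellFoundedLT
    (fun M : Submodule k V => M ≠ ⊥ ∧ M ≤ Submodule.span k Δ ∧ ∀ h ∈ H, ∀ u ∈ M, ρ h u ∈ M) U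
    ⟨hne, hU, hU'⟩
  obtain ⟨⟨hM0, hMW, hMH⟩, hmin⟩ := hM
  have hmin' : ∀ N : Submodule k V, N ≤ M → (∀ h ∈ H, ∀ u ∈ N, ρ h u ∈ N) → N = ⊥ ∨ N = M := by
    intro N hN hNH
    by_cases h : N = ⊥
    · exact Or.inl h
    · exact Or.inr (le_antisymm hN (hmin ⟨h, hN.trans hMW, hNH⟩ hN))
  have hMne : M ≠ Submodule.span k Δ := by
    intro h
    exact hneW (le_antisymm hU (h ▸ hMU))
  -- the root
  obtain ⟨d, hd, hdM, u₀, hu₀, hud⟩ : ∃ d ∈ Δ, d ∉ M ∧ ∃ u ∈ M, b u d ≠ 0 := by
    by_contra hcon
    push Not at hcon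
    rcases hirr M hMW (fun δ hδ => by
      by_cases h : δ ∈ M
      · exact Or.inl h
      · exact Or.inr (hcon δ hδ h)) with h | h
    · exact hM0 h
    · exact hMne h
  obtain ⟨g, hg⟩ := hr d hd
  have hkey := td10_key h2 ρ b H M hMH d (h0 d hd) g hg u₀ hu₀ (by rw [hs]; exact hud)
  have hinv : ∀ h x, ρ h (ρ h⁻¹ x) = x := by
    intro h x
    rw [← Module.End.mul_apply, ← map_mul, mul_inv_cancel, map_one, Module.End.one_apply]
  have hadj : ∀ h x y, b (ρ h x) y = b x (ρ h⁻¹ y) := by
    intro h x y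
    rw [← hb h x (ρ h⁻¹ y), hinv]
  have hrefl : b.IsRefl := by
    intro x y h
    rw [hs]; exact h
  -- the radical
  have hR : M ⊓ b.orthogonal M = ⊥ ∨ M ⊓ b.orthogonal M = M := by
    refine hmin' _ inf_le_left ?_
    rintro h hh x ⟨hx, hx'⟩
    refine ⟨hMH h hh x hx, ?_⟩
    intro n hn
    change b n (ρ h x) = 0
    rw [hs, hadj, hs]
    exact hx' _ (hMH _ (H.inv_mem hh) n hn)
  rcases hR with hR | hR
  · have hcompl : IsCompl M (b.orthogonal M) :=
      (LinearMap.BilinForm.isCompl_orthogonal_iff_disjoint hrefl).2 (disjoint_iff.2 hR)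
    obtain ⟨a, ha, a', ha', hda⟩ : ∃ a ∈ M, ∃ a' ∈ b.orthogonal M, a + a' = d := by
      have : d ∈ M ⊔ b.orthogonal M := by rw [hcompl.sup_eq_top]; trivial
      exact Submodule.mem_sup.1 this
    have ha'W : a' ∈ Submodule.span k Δ := by
      have : a' = d - a := by rw [← hda]; abel
      rw [this]
      exact sub_mem (Submodule.subset_span hd) (hMW ha)
    have ha'0 : a' = 0 := by
      refine td10_C C hdim a' ha'W fun h hh => ?_
      obtain ⟨v, hv, c, hc⟩ := hkey h hh
      refine ⟨c, ?_⟩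
      have h3 : ρ h a' - c • a' ∈ M := by
        have : ρ h a' - c • a' = v + c • a - ρ h a := by
          rw [← hda, map_add] at hc
          rw [eq_sub_of_add_eq' hc]
          module
        rw [this]
        exact M.sub_mem (M.add_mem hv (M.smul_mem _ ha)) (hMH h hh a ha)
      have h4 : ρ h a' - c • a' ∈ b.orthogonal M := by
        refine Submodule.sub_mem _ ?_ (Submodule.smul_mem _ _ ha')
        intro n hn
        change b n (ρ h a') = 0
        rw [hs, hadj, hs]
        exact ha' _ (hMH _ (H.inv_mem hh) n hn)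
      have h5 : ρ h a' - c • a' ∈ M ⊓ b.orthogonal M := ⟨h3, h4⟩
      rw [hR, Submodule.mem_bot] at h5
      exact sub_eq_zero.1 h5
    apply hdM
    rw [← hda, ha'0, add_zero]
    exact ha
  · have hiso : ∀ x ∈ M, ∀ y ∈ M, b x y = 0 := by
      intro x hx y hy
      have : y ∈ M ⊓ b.orthogonal M := by rw [hR]; exact hy
      exact this.2 x hx
    -- the hyperplane
    let M0 : Submodule k V := M ⊓ LinearMap.ker (b d)
    have hM0' : M0 = ⊥ := by
      rcases hmin' M0 inf_le_left (by
        rintro h hh x ⟨hx, hx'⟩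
        refine ⟨hMH h hh x hx, ?_⟩
        have hx'' : b d x = 0 := hx'
        change b d (ρ h x) = 0
        obtain ⟨v, hv, c, hc⟩ := hkey h⁻¹ (H.inv_mem hh)
        rw [hs, hadj, hc, map_add, map_smul, hiso x hx v hv, hs x d, hx'']
        simp) with h | h
      · exact h
      · exfalso
        have : u₀ ∈ M0 := by rw [h]; exact hu₀
        have h3 : b d u₀ = 0 := this.2
        rw [hs] at h3
        exact hud h3
    have hu0 : u₀ = 0 := by
      refine td10_C C hdim u₀ (hMW hu₀) fun h hh => ?_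
      refine ⟨b (ρ h u₀) d / b u₀ d, ?_⟩
      have h3 : ρ h u₀ - (b (ρ h u₀) d / b u₀ d) • u₀ ∈ M0 := by
        refine ⟨M.sub_mem (hMH h hh _ hu₀) (M.smul_mem _ hu₀), ?_⟩
        change b d _ = 0
        rw [hs, map_sub, map_smul, LinearMap.sub_apply, LinearMap.smul_apply, smul_eq_mul,
          div_mul_cancel₀ _ hud, sub_self]
      rw [hM0', Submodule.mem_bot] at h3
      exact sub_eq_zero.1 h3
    apply hud
    rw [hu0]
    simp

end Pool.Agent.TD
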